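import Pool.Agent.N718.GC.Stm

/-!
# Project GC (helper718), part PRODK by helper592
-/

set_option autoImplicit false
set_option linter.all false

namespace Pool.Agent.N592.GC

open Finset Pool.Agent.N718.DC Pool.Agent.N718.GC

theorem fmv_cast {e : ℕ} (c : Fin (e + 2) → ℤ) (K : Type) [CommRing K] (x y : ℤ) :
    fmv c (x : K) (y : K) = ((fm c x y : ℤ) : K) := by
  unfold fmv fm
  push_cast
  rfl

/-- the shifted value -/
def Gv (M : ℕ) (s F : ℤ) : ℤ := F + s * (M * (|F| + 1))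

theorem Gv_pos (M : ℕ) (s F : ℤ) (hM : 1 ≤ M) (hs : s = 1 ∨ s = -1) : 0 < s * Gv M s F := by
  have h1 : (1 : ℤ) ≤ M := by exact_mod_cast hM
  have h2 : 0 ≤ |F| := abs_nonneg F
  have h3 : (|F| + 1) ≤ M * (|F| + 1) := by nlinarith
  unfold Gv
  rcases hs with rfl | rfl
  · have h4 := neg_abs_le F
    linarith
  · have h4 := le_abs_self F
    linarith

theorem prodk_ (h1 : S_KAP) (h2 : S_LOCN) (h3 : S_PROD) : S_PRODK := by
  intro r m E e hOk M hB γ s a₀ a₁ hs hL j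
  obtain ⟨-, -, hk3, hk4, -⟩ := h1
  obtain ⟨-, hl2, hl3, -⟩ := h2
  obtain ⟨hM, h2M, hbad⟩ := hB
  -- the numbers
  have hG : ∀ i, 0 < s i * Gv M (s i) (fm (γ i) a₀ a₁) := fun i => Gv_pos M _ _ hM (hs.1 i)
  have hG0 : ∀ i, Gv M (s i) (fm (γ i) a₀ a₁) ≠ 0 := by
    intro i h
    have h4 := hG i
    rw [h, mul_zero] at h4
    exact lt_irrefl _ h4
  have hdvd : ∀ p : ℤ, p ∣ E.a j * E.b j → p ∣ ∏ j, (E.a j * E.b j) := fun p hp =>
    hp.trans (Finset.dvd_prod_of_mem _ (Finset.mem_univ j))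
  have ha0 : E.a j ≠ 0 := by
    intro h
    apply hOk.ha {j} (Finset.singleton_nonempty j)
    rw [Finset.prod_singleton, h]
    exact ⟨0, by ring⟩
  have hCont : Cont M (E.a j) :=
    ⟨hM, h2M, fun p hp hpa => hbad p hp (hdvd _ (Dvd.dvd.mul_right hpa _))⟩
  have hprod : ∀ S : Finset (Fin m), kap M (E.a j) (∏ i ∈ S, Gv M (s i) (fm (γ i) a₀ a₁)) =
      ∏ i ∈ S, kap M (E.a j) (Gv M (s i) (fm (γ i) a₀ a₁)) := by
    intro S
    induction S using Finset.induction_on with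
    | empty =>
      rw [Finset.prod_empty, Finset.prod_empty]
      refine hk4 M (E.a j) 1 one_ne_zero ?_
      intro p hp hp1
      exfalso
      have h4 : p ∣ 1 := by exact_mod_cast hp1
      exact hp.one_lt.ne' (Nat.dvd_one.1 h4)
    | insert i S hi ih =>
      rw [Finset.prod_insert hi, Finset.prod_insert hi, ← ih]
      exact hk3 M (E.a j) _ _ (hG0 i) (Finset.prod_ne_zero_iff.2 fun i _ => hG0 i)
  have hP0 : (∏ i ∈ E.I j, Gv M (s i) (fm (γ i) a₀ a₁)) ≠ 0 :=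
    Finset.prod_ne_zero_iff.2 fun i _ => hG0 i
  have hkey : kap M (E.a j) (E.b j * ∏ i ∈ E.I j, Gv M (s i) (fm (γ i) a₀ a₁)) = 1 := by
    refine h3 M (E.a j) _ ha0 (mul_ne_zero (hOk.hb j) hP0) hCont ?_ ?_
    · rcases hs.2 j with h | h
      · exact Or.inl h
      · right
        have h4 : 0 < ∏ i ∈ E.I j, (s i * Gv M (s i) (fm (γ i) a₀ a₁)) :=
          Finset.prod_pos fun i _ => hG i
        rw [Finset.prod_mul_distrib] at h4
        have h5 : (∏ i ∈ E.I j, s i) * ∏ i ∈ E.I j, s i = 1 := by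
          rw [← Finset.prod_mul_distrib]
          refine Finset.prod_eq_one fun i _ => ?_
          rcases hs.1 i with h6 | h6 <;> rw [h6] <;> norm_num
        have h6 := mul_pos h h4
        calc (0 : ℤ) < _ := h6
          _ = ((∏ i ∈ E.I j, s i) * ∏ i ∈ E.I j, s i) *
              (E.b j * ∏ i ∈ E.I j, Gv M (s i) (fm (γ i) a₀ a₁)) := by ring
          _ = _ := by rw [h5, one_mul]
    · intro p hp hpM
      have h4 := (hL.sol p hpM).2 j
      have hval := hL.val p hp.out hpM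
      have hdl : 3 ≤ dl E p := Nat.le_add_right _ _
      have h5 : ∀ i, ∃ z : ℚ_[p], z ≠ 0 ∧
          ((Gv M (s i) (fm (γ i) a₀ a₁) : ℤ) : ℚ_[p]) = ((fm (γ i) a₀ a₁ : ℤ) : ℚ_[p]) * z ^ 2 := by
        intro i
        refine hl2 p (fm (γ i) a₀ a₁) (Gv M (s i) (fm (γ i) a₀ a₁))
          (padicValNat p M - dl E p) (hval.2 i) ?_
        have h6 : (fm (γ i) a₀ a₁) - Gv M (s i) (fm (γ i) a₀ a₁) =
            (M : ℤ) * (-(s i) * (|fm (γ i) a₀ a₁| + 1)) := by
          unfold Gv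
          ring
        rw [h6]
        refine Dvd.dvd.mul_right ?_ _
        have h7 : p ^ (padicValNat p M - dl E p + 3) ∣ M :=
          (pow_dvd_pow p (by have := hval.1; omega)).trans pow_padicValNat_dvd
        exact_mod_cast h7
      choose z hz0 hz using h5
      have h6 : ((E.b j * ∏ i ∈ E.I j, Gv M (s i) (fm (γ i) a₀ a₁) : ℤ) : ℚ_[p]) =
          rhs E γ j ((a₀ : ℤ) : ℚ_[p]) ((a₁ : ℤ) : ℚ_[p]) * (∏ i ∈ E.I j, z i) ^ 2 := by
        unfold rhs
        push_cast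
        rw [mul_assoc, ← Finset.prod_pow, ← Finset.prod_mul_distrib]
        congr 1
        refine Finset.prod_congr rfl fun i _ => ?_
        rw [hz i, fmv_cast]
      rw [h6]
      exact hl3 _ _ _ _ h4
  rw [hk3 M (E.a j) _ _ (hOk.hb j) hP0, hk4 M (E.a j) _ (hOk.hb j) (fun p hp hpb =>
    hbad p hp (hdvd _ (Dvd.dvd.mul_left hpb _))), one_mul, hprod] at hkey
  exact hkey

end Pool.Agent.N592.GC
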